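import Pool.Agent.Helper51.PP.Spec

/-!
# Swarm PC, part SB (helper6): grid line Sobolev inequality for steps of length two
-/

set_option autoImplicit false

namespace Pool.Agent.Helper6.PC.SB

open Pool.Agent.Helper51.PP MeasureTheory Function
open scoped ENNReal BigOperators

variable {d : ℕ}

/-- two steps in the same direction -/
noncomputable def T2 (ω : Conf d) (hω : Good ω) (e : Fin d × Bool) (y : Occ ω) : Occ ω :=
  nxO ω hω (nxO ω hω y e) e

theorem gap_pos {ω : Conf d} (hω : Good ω) (v : Fin d → ℤ) (e : Fin d × Bool) :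
    1 ≤ gap ω v e :=
  (Nat.sInf_mem (s := {k : ℕ | 1 ≤ k ∧ ω (v + (k : ℤ) • dirVec e) = true}) (hω v e)).1

theorem T2_val {ω : Conf d} (hω : Good ω) (i : Fin d) (y : Occ ω) :
    ∃ s : ℤ, 0 < s ∧ (T2 ω hω (i, true) y).1 = y.1 + s • (Pi.single i 1 : Fin d → ℤ) := by
  refine ⟨(gap ω y.1 (i, true) : ℤ) + (gap ω (nextPt ω y.1 (i, true)) (i, true) : ℤ), ?_, ?_⟩
  · have h1 := gap_pos hω y.1 (i, true)
    have h2 := gap_pos hω (nextPt ω y.1 (i, true)) (i, true)
    omega
  · unfold T2 nxO
    simp only [nextPt, dirVec, if_true]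
    rw [add_smul, add_assoc]

theorem T2_iter {ω : Conf d} (hω : Good ω) (i : Fin d) (y : Occ ω) :
    ∃ s : ℕ → ℤ, StrictMono s ∧ s 0 = 0 ∧ ∀ k, ((T2 ω hω (i, true))^[k] y).1 =
      y.1 + s k • (Pi.single i 1 : Fin d → ℤ) := by
  choose g hg1 hg2 using T2_val hω i
  refine ⟨fun k => ∑ j ∈ Finset.range k, g ((T2 ω hω (i, true))^[j] y), ?_, by simp, ?_⟩
  · apply strictMono_nat_of_lt_succ
    intro n
    rw [Finset.sum_range_succ]
    linarith [hg1 ((T2 ω hω (i, true))^[n] y)]
  · intro k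
    induction k with
    | zero => simp
    | succ k ih =>
      rw [iterate_succ_apply', hg2, ih]
      simp only [Finset.sum_range_succ]
      rw [add_smul, add_assoc]

/-- the function whose line sums bound `|u|` -/
noncomputable def ff (ω : Conf d) (hω : Good ω) (u : Occ ω → ℝ) (x : Fin d → ℤ) : ℝ≥0∞ :=
  if h : ω x = true then
    ∑ i : Fin d, ENNReal.ofReal |u (T2 ω hω (i, true) ⟨x, h⟩) - u ⟨x, h⟩| else 0

theorem line (ω : Conf d) (hω : Good ω) (u : Occ ω → ℝ) (hu : (support u).Finite) (i : Fin d)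
    (y : Occ ω) : ENNReal.ofReal |u y| ≤ ∑' t : ℤ, ff ω hω u (update y.1 i t) := by
  obtain ⟨s, hs, hs0, hsk⟩ := T2_iter hω i y
  obtain ⟨z, hz⟩ : ∃ z : ℕ → Occ ω, ∀ k, z k = (T2 ω hω (i, true))^[k] y := ⟨_, fun _ => rfl⟩
  have hzu : ∀ k, (z k).1 = update y.1 i (y.1 i + s k) := by
    intro k
    rw [hz, hsk]
    ext j
    by_cases hj : j = i
    · subst hj; simp
    · simp [hj]
  have hzs : ∀ k, z (k + 1) = T2 ω hω (i, true) (z k) := by
    intro k; rw [hz, hz, iterate_succ_apply']
  have hzinj : Injective z := by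
    intro a b hab
    have h1 : (z a).1 i = (z b).1 i := by rw [hab]
    rw [hzu, hzu] at h1
    simp only [update_self] at h1
    exact hs.injective (by linarith)
  obtain ⟨N, hN⟩ : ∃ N, u (z N) = 0 := by
    by_contra hc
    push Not at hc
    have : (Set.range z) ⊆ support u := by
      rintro _ ⟨k, rfl⟩
      exact hc k
    exact (Set.infinite_range_of_injective hzinj) (hu.subset this)
  have h1 : |u y| ≤ ∑ k ∈ Finset.range N, |u (z (k + 1)) - u (z k)| := by
    have h2 : ∑ k ∈ Finset.range N, (u (z (k + 1)) - u (z k)) = u (z N) - u (z 0) :=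
      Finset.sum_range_sub (fun k => u (z k)) N
    have h3 : z 0 = y := by rw [hz]; rfl
    have h4 := Finset.abs_sum_le_sum_abs (fun k => u (z (k + 1)) - u (z k)) (Finset.range N)
    rw [h2, hN, h3, zero_sub, abs_neg] at h4
    exact h4
  have h5 : ENNReal.ofReal |u y| ≤
      ∑ k ∈ Finset.range N, ENNReal.ofReal |u (z (k + 1)) - u (z k)| := by
    rw [← ENNReal.ofReal_sum_of_nonneg (fun _ _ => abs_nonneg _)]
    exact ENNReal.ofReal_le_ofReal h1
  have h6 : ∀ k, ENNReal.ofReal |u (z (k + 1)) - u (z k)| ≤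
      ff ω hω u (update y.1 i (y.1 i + s k)) := by
    intro k
    have hoc : ω (z k).1 = true := (z k).2
    rw [← hzu]
    unfold ff
    rw [dif_pos hoc, hzs]
    exact Finset.single_le_sum (f := fun j => ENNReal.ofReal
      |u (T2 ω hω (j, true) ⟨(z k).1, hoc⟩) - u ⟨(z k).1, hoc⟩|) (fun _ _ => zero_le)
      (Finset.mem_univ i)
  calc ENNReal.ofReal |u y| ≤ _ := h5
    _ ≤ ∑ k ∈ Finset.range N, ff ω hω u (update y.1 i (y.1 i + s k)) :=
        Finset.sum_le_sum (fun k _ => h6 k)
    _ ≤ ∑' k, ff ω hω u (update y.1 i (y.1 i + s k)) := ENNReal.sum_le_tsum _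
    _ ≤ _ := ENNReal.tsum_comp_le_tsum_of_injective (f := fun k => y.1 i + s k)
        (fun a b hab => hs.injective (by
          have : y.1 i + s a = y.1 i + s b := hab
          linarith)) (fun t => ff ω hω u (update y.1 i t))

theorem lint_count {g : ℤ → ℝ≥0∞} : ∫⁻ t, g t ∂Measure.count = ∑' t, g t := by
  rw [lintegral_countable']
  simp

theorem lint_pi {g : (Fin d → ℤ) → ℝ≥0∞} :
    ∫⁻ x, g x ∂(Measure.pi (fun _ : Fin d => (Measure.count : Measure ℤ))) = ∑' x, g x := by
  rw [lintegral_countable']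
  congr 1
  ext x
  rw [Measure.pi_singleton]
  simp

theorem main (hG : S_GEO1) : S_SB := by
  intro d hd ω hω u hu
  have hR := hG d ω hω
  have hd1 : (1 : ℝ) < d := by exact_mod_cast hd
  have hd0 : (0 : ℝ) < (d : ℝ) - 1 := by linarith
  obtain ⟨p, hp⟩ : ∃ p : ℝ, p = (d : ℝ) / ((d : ℝ) - 1) := ⟨_, rfl⟩
  rw [← hp]
  have hp0 : 0 < p := by rw [hp]; positivity
  have hconj : Real.HolderConjugate (Fintype.card (Fin d)) p := by
    rw [Fintype.card_fin, hp]
    exact Real.HolderConjugate.conjExponent hd1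
  have key := lintegral_prod_lintegral_pow_le (A := fun _ : Fin d => ℤ)
    (μ := fun _ : Fin d => (Measure.count : Measure ℤ)) hconj (f := ff ω hω u) (by fun_prop)
  rw [lint_pi, lint_pi, Fintype.card_fin] at key
  simp_rw [lint_count] at key
  -- lower bound of the left side
  have hinj : Injective (Subtype.val : Occ ω → (Fin d → ℤ)) := Subtype.val_injective
  have low : ENNReal.ofReal (∑' y, |u y| ^ p) ≤
      ∑' x, ∏ i, (∑' t : ℤ, ff ω hω u (update x i t)) ^ ((1 : ℝ) / ((d : ℝ) - 1)) := by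
    rw [ENNReal.ofReal_tsum_of_nonneg (fun y => by positivity)
      (summable_of_finite_support (hu.subset (fun y hy hy' => hy (by
        show |u y| ^ p = 0
        rw [hy', abs_zero, Real.zero_rpow hp0.ne']))))]
    refine le_trans ?_ (ENNReal.tsum_comp_le_tsum_of_injective hinj _)
    apply ENNReal.tsum_le_tsum
    intro y
    have h1 : ∏ _i : Fin d, (ENNReal.ofReal |u y|) ^ ((1 : ℝ) / ((d : ℝ) - 1)) ≤
        ∏ i : Fin d, (∑' t : ℤ, ff ω hω u (update y.1 i t)) ^ ((1 : ℝ) / ((d : ℝ) - 1)) := by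
      apply Finset.prod_le_prod' 
      intro i _
      exact ENNReal.rpow_le_rpow (line ω hω u hu i y) (by positivity)
    refine le_trans (le_of_eq ?_) h1
    rw [Finset.prod_const, Finset.card_univ, Fintype.card_fin, ← ENNReal.rpow_natCast,
      ← ENNReal.rpow_mul, ← ENNReal.ofReal_rpow_of_nonneg (abs_nonneg _) hp0.le]
    congr 1
    rw [hp]; ring
  have hfin : ∀ e : Fin d × Bool,
      (support (fun y => |u (nxO ω hω (nxO ω hω y e) e) - u y|)).Finite := by
    intro e
    have hinj2 : Injective (fun y => nxO ω hω (nxO ω hω y e) e) := by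
      have h1 : Injective (fun y => nxO ω hω y e) := by
        intro a b hab
        have h2 := hR.back a e
        have h3 := hR.back b e
        have hab' : nxO ω hω a e = nxO ω hω b e := hab
        rw [hab'] at h2
        rw [← h2, h3]
      exact h1.comp h1
    have h4 : ((fun y => nxO ω hω (nxO ω hω y e) e) ⁻¹' support u).Finite :=
      hu.preimage hinj2.injOn
    refine (h4.union hu).subset ?_
    intro y hy
    by_contra hc
    simp only [Set.mem_union, Set.mem_preimage, mem_support, not_or, not_not] at hc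
    apply hy
    simp only
    rw [hc.1, hc.2]; simp
  have up : ∑' x, ff ω hω u x ≤
      ENNReal.ofReal (∑ e, ∑' y, |u (nxO ω hω (nxO ω hω y e) e) - u y|) := by
    have h1 : ∑' x, ff ω hω u x = ∑' y : Occ ω, ff ω hω u y.1 := by
      symm
      apply hinj.tsum_eq
      intro x hx
      by_contra hc
      apply hx
      unfold ff
      rw [dif_neg]
      intro h
      exact hc ⟨⟨x, h⟩, rfl⟩
    rw [h1]
    have h2 : ∀ y : Occ ω, ff ω hω u y.1 =
        ∑ i : Fin d, ENNReal.ofReal |u (T2 ω hω (i, true) y) - u y| := by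
      intro y
      unfold ff
      rw [dif_pos y.2]
    simp_rw [h2]
    rw [Summable.tsum_finsetSum (fun _ _ => ENNReal.summable)]
    have h3 : ∀ i : Fin d, ∑' y, ENNReal.ofReal |u (T2 ω hω (i, true) y) - u y| =
        ENNReal.ofReal (∑' y, |u (nxO ω hω (nxO ω hω y (i, true)) (i, true)) - u y|) := by
      intro i
      rw [ENNReal.ofReal_tsum_of_nonneg (fun _ => abs_nonneg _)
        (summable_of_finite_support (hfin (i, true)))]
      rfl
    simp_rw [h3]
    rw [← ENNReal.ofReal_sum_of_nonneg (fun _ _ => tsum_nonneg (fun _ => abs_nonneg _))]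
    apply ENNReal.ofReal_le_ofReal
    rw [Fintype.sum_prod_type]
    apply Finset.sum_le_sum
    intro i _
    rw [Fintype.sum_bool]
    have : 0 ≤ ∑' y, |u (nxO ω hω (nxO ω hω y (i, false)) (i, false)) - u y| :=
      tsum_nonneg (fun _ => abs_nonneg _)
    linarith
  have hnn : 0 ≤ ∑ e, ∑' y, |u (nxO ω hω (nxO ω hω y e) e) - u y| :=
    Finset.sum_nonneg (fun _ _ => tsum_nonneg (fun _ => abs_nonneg _))
  have fin := le_trans (le_trans low key) (ENNReal.rpow_le_rpow up hp0.le)
  rw [ENNReal.ofReal_rpow_of_nonneg hnn hp0.le] at fin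
  exact (ENNReal.ofReal_le_ofReal_iff (by positivity)).1 fin

end Pool.Agent.Helper6.PC.SB
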